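import Pool.Agent.VTP.StmtsT

/-!
# VTP, row EBX
-/

set_option autoImplicit false

namespace Pool.Agent.VTP.H83

open Finset Pool.Agent.ZOL Pool.Agent.VTP

theorem coeff_bx (m : ℕ) (e : ℤ) (k : ℕ) :
    PowerSeries.coeff k (bx m e) = if m ∣ k then Ring.choose e (k / m) else 0 := by
  simp [bx]

theorem sum_anti (m n : ℕ) (hm : 1 ≤ m) (g : ℕ × ℕ → ℤ)
    (hg : ∀ p ∈ antidiagonal (m * n), ¬ (m ∣ p.1 ∧ m ∣ p.2) → g p = 0) :
    ∑ p ∈ antidiagonal (m * n), g p = ∑ p ∈ antidiagonal n, g (m * p.1, m * p.2) := by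
  rw [← Finset.sum_image (s := antidiagonal n) (g := fun p : ℕ × ℕ => (m * p.1, m * p.2))
    (f := g)]
  · symm
    apply Finset.sum_subset
    · intro p hp
      rw [Finset.mem_image] at hp
      obtain ⟨q, hq, rfl⟩ := hp
      rw [HasAntidiagonal.mem_antidiagonal] at hq ⊢
      show m * q.1 + m * q.2 = m * n
      rw [← hq, mul_add]
    · intro p hp hn
      apply hg p hp
      rintro ⟨⟨a, ha⟩, ⟨b, hb⟩⟩
      apply hn
      rw [Finset.mem_image]
      refine ⟨(a, b), ?_, ?_⟩
      · rw [HasAntidiagonal.mem_antidiagonal] at hp ⊢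
        rw [ha, hb, ← mul_add] at hp
        exact Nat.eq_of_mul_eq_mul_left hm hp
      · ext
        · exact ha.symm
        · exact hb.symm
  · intro p _ q _ h
    simp only [Prod.mk.injEq] at h
    ext
    · exact Nat.eq_of_mul_eq_mul_left hm h.1
    · exact Nat.eq_of_mul_eq_mul_left hm h.2

theorem ebx : EbxStmt := by
  intro m hm
  constructor
  · ext k
    rw [coeff_bx, PowerSeries.coeff_one]
    by_cases hk : k = 0
    · subst hk
      simp
    · rw [if_neg hk]
      split_ifs with hd
      · obtain ⟨n, rfl⟩ := hd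
        have hn : n ≠ 0 := by
          rintro rfl
          exact hk (mul_zero _)
        rw [Nat.mul_div_cancel_left _ hm]
        exact Ring.choose_zero_pos ℤ (Nat.pos_of_ne_zero hn)
      · rfl
  · intro e e'
    ext k
    rw [PowerSeries.coeff_mul]
    simp only [coeff_bx]
    split_ifs with hd
    · obtain ⟨n, rfl⟩ := hd
      rw [Nat.mul_div_cancel_left _ hm, Ring.add_choose_eq n (Commute.all e e')]
      rw [sum_anti m n hm]
      · apply Finset.sum_congr rfl
        intro p _
        simp [Nat.mul_div_cancel_left _ (show 0 < m from hm)]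
      · intro p _ hp
        by_cases h1 : m ∣ p.1
        · have h2 : ¬ m ∣ p.2 := fun h => hp ⟨h1, h⟩
          rw [if_neg h2, mul_zero]
        · rw [if_neg h1, zero_mul]
    · symm
      apply Finset.sum_eq_zero
      intro p hp
      rw [HasAntidiagonal.mem_antidiagonal] at hp
      by_cases h1 : m ∣ p.1
      · have h2 : ¬ m ∣ p.2 := fun h => hd (by rw [← hp]; exact dvd_add h1 h)
        rw [if_neg h2, mul_zero]
      · rw [if_neg h1, zero_mul]

end Pool.Agent.VTP.H83
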