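import Pool.Agent.VTP.StmtsT

/-!
# VTP, row TSW: crossing changes in the twist knots
-/

set_option autoImplicit false

namespace Pool.Agent.VTP.H83

open Finset Pool.Agent.ZOL Pool.Agent.VTP

/-- The list of the crossings of a list of pairs. -/
def fl (ps : List (ℕ × ℕ)) : List ℕ := ps.flatMap (fun p => [p.1, p.2])

theorem fl_nil : fl [] = [] := rfl

theorem fl_cons (p : ℕ × ℕ) (ps : List (ℕ × ℕ)) : fl (p :: ps) = p.1 :: p.2 :: fl ps := by
  simp [fl]

theorem fl_append (ps qs : List (ℕ × ℕ)) : fl (ps ++ qs) = fl ps ++ fl qs := by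
  simp [fl]

theorem fl_length (ps : List (ℕ × ℕ)) : (fl ps).length = 2 * ps.length := by
  induction ps with
  | nil => rfl
  | cons p ps ih =>
    rw [fl_cons]
    simp only [List.length_cons, ih]
    ring

theorem even_fl (ps : List (ℕ × ℕ)) : Even (fl ps).length := by
  rw [fl_length]
  exact even_two_mul _

/-- The list of the pairs of `tw N`. -/
def pp (N : ℕ) : List (ℕ × ℕ) := (List.range N).map (fun i => (2 * i + 2, 2 * i + 3))

theorem fl_pp (N : ℕ) : fl (pp N) = (List.range (2 * N)).map (fun n => n + 2) := by
  induction N with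
  | zero => rfl
  | succ N ih =>
    have h1 : pp (N + 1) = pp N ++ [(2 * N + 2, 2 * N + 3)] := by
      simp [pp, List.range_succ]
    have h2 : 2 * (N + 1) = (2 * N + 1) + 1 := by ring
    rw [h1, fl_append, ih, h2, List.range_succ, List.range_succ]
    simp [fl]

theorem tw_eq (N : ℕ) : tw N = tg (fl (pp N)) tov := by
  rw [fl_pp]
  rfl

theorem map_fl (ov : ℕ → Bool) : ∀ ps : List (ℕ × ℕ), (∀ p ∈ ps, ov p.1 = false ∧ ov p.2 = true) →
    (fl ps).map ov = (List.replicate ps.length [false, true]).flatten := by
  intro ps
  induction ps with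
  | nil => intro _; rfl
  | cons p ps ih =>
    intro h
    have h1 := h p List.mem_cons_self
    rw [fl_cons, List.map_cons, List.map_cons, h1.1, h1.2,
      ih (fun q hq => h q (List.mem_cons_of_mem _ hq))]
    simp [List.replicate_succ]

theorem nodup_fl_pp (N : ℕ) : (fl (pp N)).Nodup := by
  rw [fl_pp]
  refine List.Nodup.map ?_ List.nodup_range
  intro a b h
  simpa using h

theorem zero_fl_pp (N : ℕ) : 0 ∉ fl (pp N) := by
  rw [fl_pp]
  simp

theorem one_fl_pp (N : ℕ) : 1 ∉ fl (pp N) := by
  rw [fl_pp]
  simp

theorem tov_two (i : ℕ) : tov (2 * i + 2) = false := by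
  unfold tov
  rw [if_neg (by omega), if_neg (by omega)]
  exact decide_eq_false (by omega)

theorem tov_three (i : ℕ) : tov (2 * i + 3) = true := by
  unfold tov
  rw [if_neg (by omega), if_neg (by omega)]
  exact decide_eq_true (by omega)

/-- The general form of the second part. -/
theorem gen (hrm : TrmStmt) (hrn : TrnStmt) (w : Word) (hw : IsGauss w) (hp : Planar (shadow w))
    (ov : ℕ → Bool) (h0 : ov 0 = true) (h1 : ov 1 = false) :
    ∀ (n : ℕ) (ps : List (ℕ × ℕ)), ps.length = n → (∀ p ∈ ps, ov p.2 = true) → (fl ps).Nodup →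
      0 ∉ fl ps → 1 ∉ fl ps →
      kn (mul w (tg (fl ps) ov)) = kn (mul w (tw (ps.filter (fun p => !ov p.1)).length)) := by
  intro n
  induction n with
  | zero =>
    intro ps hn _ _ _ _
    have hps : ps = [] := List.length_eq_zero_iff.1 hn
    subst hps
    show kn (mul w (tg [] ov)) = kn (mul w (tw 0))
    rw [tw_eq]
    exact hrn w [] (fl (pp 0)) ov tov hw hp List.nodup_nil (nodup_fl_pp 0) List.not_mem_nil
      List.not_mem_nil (zero_fl_pp 0) (one_fl_pp 0) (even_fl []) rfl h0 h1 rfl
  | succ n ih =>
    intro ps hn hps hnd h0' h1'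
    by_cases hall : ∀ p ∈ ps, ov p.1 = false
    · have hf : ps.filter (fun p => !ov p.1) = ps := by
        rw [List.filter_eq_self]
        intro p hpm
        rw [hall p hpm]
        rfl
      rw [hf, tw_eq]
      refine hrn w (fl ps) (fl (pp ps.length)) ov tov hw hp hnd (nodup_fl_pp _) h0' h1'
        (zero_fl_pp _) (one_fl_pp _) (even_fl ps) ?_ ?_ ?_ ?_
      · rw [fl_length, fl_length]
        simp [pp]
      · rw [h0]; rfl
      · rw [h1]; rfl
      · rw [map_fl ov ps (fun p hpm => ⟨hall p hpm, hps p hpm⟩), map_fl tov (pp ps.length)]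
        · simp [pp]
        · intro p hpm
          simp only [pp, List.mem_map] at hpm
          obtain ⟨i, -, rfl⟩ := hpm
          exact ⟨tov_two i, tov_three i⟩
    · push Not at hall
      obtain ⟨p, hpm, hpf⟩ := hall
      have hpt : ov p.1 = true := by
        cases h : ov p.1 with
        | false => exact absurd h hpf
        | true => rfl
      obtain ⟨ps₁, ps₂, rfl⟩ := List.append_of_mem hpm
      have e1 : fl (ps₁ ++ p :: ps₂) = fl ps₁ ++ [p.1, p.2] ++ fl ps₂ := by
        rw [fl_append, fl_cons]
        simp
      rw [e1] at hnd h0' h1' ⊢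
      have hpp : ov p.1 = ov p.2 := by
        rw [hpt, hps p hpm]
      rw [hrm w (fl ps₁) (fl ps₂) p.1 p.2 ov hw hp hnd h0' h1' (even_fl _) (even_fl _) hpp]
      have e2 : (ps₁ ++ p :: ps₂).filter (fun p => !ov p.1) =
          (ps₁ ++ ps₂).filter (fun p => !ov p.1) := by
        rw [List.filter_append, List.filter_append, List.filter_cons_of_neg (by simp [hpt])]
      rw [e2, ← fl_append]
      apply ih (ps₁ ++ ps₂)
      · simp only [List.length_append, List.length_cons] at hn ⊢
        omega
      · intro q hq
        apply hps q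
        rw [List.mem_append] at hq
        rcases hq with hq | hq
        · exact List.mem_append_left _ hq
        · exact List.mem_append_right _ (List.mem_cons_of_mem _ hq)
      · rw [fl_append]
        refine List.Nodup.sublist ?_ hnd
        exact List.Sublist.append_right (List.sublist_append_left _ _) _
      · rw [fl_append]
        intro h
        apply h0'
        rw [List.mem_append] at h
        rcases h with h | h
        · simp [h]
        · simp [h]
      · rw [fl_append]
        intro h
        apply h1'
        rw [List.mem_append] at h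
        rcases h with h | h
        · simp [h]
        · simp [h]

theorem card_eq (N : ℕ) (S : Finset ℕ) (hS : S ⊆ (range N).image (fun i => 2 * i + 2))
    (ov : ℕ → Bool) (hov : ∀ i, ov (2 * i + 2) = decide (2 * i + 2 ∈ S)) :
    ((pp N).filter (fun p => !ov p.1)).length = N - S.card := by
  have e1 : ((pp N).filter (fun p => !ov p.1)).length =
      ((List.range N).filter (fun i => !decide (2 * i + 2 ∈ S))).length := by
    rw [pp, List.filter_map, List.length_map]
    congr 1
    apply List.filter_congr
    intro i _
    show (!ov (2 * i + 2)) = _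
    rw [hov]
  have e2 : ((List.range N).filter (fun i => !decide (2 * i + 2 ∈ S))).length =
      ((range N).filter (fun i => 2 * i + 2 ∉ S)).card := by
    have : ((range N).filter (fun i => 2 * i + 2 ∉ S)).card =
        ((List.range N).filter (fun i => decide (2 * i + 2 ∉ S))).length := rfl
    rw [this]
    congr 1
    apply List.filter_congr
    intro i _
    simp
  have e3 : S.card = ((range N).filter (fun i => 2 * i + 2 ∈ S)).card := by
    have : S = ((range N).filter (fun i => 2 * i + 2 ∈ S)).image (fun i => 2 * i + 2) := by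
      ext x
      rw [Finset.mem_image]
      constructor
      · intro hx
        obtain ⟨i, hi, rfl⟩ := Finset.mem_image.1 (hS hx)
        exact ⟨i, Finset.mem_filter.2 ⟨hi, hx⟩, rfl⟩
      · rintro ⟨i, hi, rfl⟩
        exact (Finset.mem_filter.1 hi).2
    conv_lhs => rw [this]
    rw [Finset.card_image_of_injective]
    intro a b h
    simpa using h
  have e4 := Finset.card_filter_add_card_filter_not (s := range N) (fun i => 2 * i + 2 ∈ S)
  rw [card_range] at e4
  rw [e1, e2, e3]
  omega

theorem tsw (hfl : TflStmt) (hrm : TrmStmt) (hrn : TrnStmt) (hun : TunStmt) : TswStmt := by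
  intro w N S hw hp
  constructor
  · intro hS h0
    rw [tw_eq, hfl]
    apply hun w _ _ hw hp (nodup_fl_pp N) (zero_fl_pp N) (one_fl_pp N) (even_fl _)
    have h1 : 1 ∉ S := by
      intro h
      have := hS h
      rw [Finset.mem_insert, Finset.mem_image] at this
      rcases this with h | ⟨i, -, h⟩
      · omega
      · omega
    show (if 0 ∈ S then !tov 0 else tov 0) = if 1 ∈ S then !tov 1 else tov 1
    rw [if_pos h0, if_neg h1]
    rfl
  · intro hS
    have hne : ∀ x, x ∈ S → ∃ i, i < N ∧ x = 2 * i + 2 := by
      intro x hx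
      obtain ⟨i, hi, rfl⟩ := Finset.mem_image.1 (hS hx)
      exact ⟨i, Finset.mem_range.1 hi, rfl⟩
    have h0 : 0 ∉ S := by
      intro h
      obtain ⟨i, -, hi⟩ := hne 0 h
      omega
    have h1 : 1 ∉ S := by
      intro h
      obtain ⟨i, -, hi⟩ := hne 1 h
      omega
    have h3 : ∀ i, 2 * i + 3 ∉ S := by
      intro i h
      obtain ⟨j, -, hj⟩ := hne _ h
      omega
    have key := gen hrm hrn w hw hp (fun l => if l ∈ S then !tov l else tov l)
      (by show (if 0 ∈ S then !tov 0 else tov 0) = true; rw [if_neg h0]; rfl)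
      (by show (if 1 ∈ S then !tov 1 else tov 1) = false; rw [if_neg h1]; rfl)
      (pp N).length (pp N) rfl
      (by
        intro p hpm
        simp only [pp, List.mem_map] at hpm
        obtain ⟨i, -, rfl⟩ := hpm
        show (if 2 * i + 3 ∈ S then !tov (2 * i + 3) else tov (2 * i + 3)) = true
        rw [if_neg (h3 i), tov_three])
      (nodup_fl_pp N) (zero_fl_pp N) (one_fl_pp N)
    have hc := card_eq N S hS (fun l => if l ∈ S then !tov l else tov l) (by
      intro i
      show (if 2 * i + 2 ∈ S then !tov (2 * i + 2) else tov (2 * i + 2)) = decide (2 * i + 2 ∈ S)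
      rw [tov_two]
      by_cases h : 2 * i + 2 ∈ S <;> simp [h])
    rw [hc] at key
    rw [← key, ← hfl, ← tw_eq]

end Pool.Agent.VTP.H83
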